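import Pool.Agent.Helper43.UN.GoalsF
import Pool.Agent.Helper56.UN.GNt
import Pool.Agent.Helper2.EW.GT

/-!
# Project UN, packet GN (backup): gluing at a corner triangle
-/

set_option autoImplicit false

namespace Pool.Agent.Helper43.UN

open Finset
open Pool.Agent.Lead.Sh
open Pool.Agent.Helper18.EW (GoalCP)
open Pool.Agent.Helper56.UN (card_tri_succ dg coeff_dg)

theorem goalGN' : GoalGN := by
  intro hCP hGNa hGNt m D e s t he htri hdis h1 h2 h3 h4 hcard
  classical
  obtain ⟨P1, hP1, hP1'⟩ := hCP.1 _ _ _ _ h3 h4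
  obtain ⟨Dp, hDp⟩ : ∃ Dp, Dp = D.filter (fun x => e ≤ x.1 + x.2) := ⟨_, rfl⟩
  rw [← hDp] at hP1
  obtain ⟨M, hM⟩ : ∃ M : Matrix (rows m s) Dp ℂ, M = Matrix.of
    (fun (r : rows m s) (d : Dp) => E r.1.2 d.1 (P1 r.1.1).1 (P1 r.1.1).2) := ⟨_, rfl⟩
  have hk := Pool.Agent.Helper2.EW.ker_dim Dp (rows m s) P1 hP1
  rw [← hM] at hk
  -- the map to the diagonal polynomials
  let Φ : (Dp → ℂ) →ₗ[ℂ] Polynomial ℂ :=
    { toFun := fun f => dg e (fun d => if h : d ∈ Dp then f ⟨d, h⟩ else 0)
      map_add' := by
        intro f g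
        ext j
        rw [Polynomial.coeff_add, coeff_dg, coeff_dg, coeff_dg]
        by_cases hj : j ≤ e
        · simp only [if_pos hj]
          by_cases hm : (j, e - j) ∈ Dp
          · simp only [dif_pos hm, Pi.add_apply]
          · simp only [dif_neg hm, add_zero]
        · simp only [if_neg hj, add_zero]
      map_smul' := by
        intro a f
        ext j
        rw [RingHom.id_apply, Polynomial.coeff_smul, coeff_dg, coeff_dg]
        by_cases hj : j ≤ e
        · simp only [if_pos hj]
          by_cases hm : (j, e - j) ∈ Dp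
          · simp only [dif_pos hm, Pi.smul_apply]
          · simp only [dif_neg hm, smul_zero]
        · simp only [if_neg hj, smul_zero] }
  have hΦ : ∀ f : Dp → ℂ, Φ f = dg e (fun d => if h : d ∈ Dp then f ⟨d, h⟩ else 0) := fun _ => rfl
  obtain ⟨V, hV⟩ : ∃ V, V = (LinearMap.ker (Matrix.toLin' M)).map Φ := ⟨_, rfl⟩
  have hVfin : Module.Finite ℂ V := by
    rw [hV]
    infer_instance
  have hVr : Module.finrank ℂ V ≤ Module.finrank ℂ (LinearMap.ker (Matrix.toLin' M)) := by
    rw [hV]
    exact Submodule.finrank_map_le Φ _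
  -- count
  have hc1 : D.card = Dp.card + (triD 0 (e - 1)).card := by
    rw [← card_union_of_disjoint]
    · congr 1
      ext x
      rw [mem_union, hDp, mem_filter, mem_triD]
      constructor
      · intro hx
        by_cases hxe : e ≤ x.1 + x.2
        · exact Or.inl ⟨hx, hxe⟩
        · exact Or.inr (by omega)
      · rintro (hx | hx)
        · exact hx.1
        · apply htri
          rw [mem_triD]
          omega
    · rw [disjoint_left]
      intro x hx hx'
      rw [hDp, mem_filter] at hx
      rw [mem_triD] at hx'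
      omega
  have hc2 := card_tri_succ he
  have hc3 : (rows m (s ∪ t)).card ≤ (rows m s).card + (rows m t).card := by
    rw [rows_union]
    exact card_union_le _ _
  obtain ⟨P2, hP2⟩ := hGNt m e t V he h1 h2 hVfin (by omega)
  rw [rows_union]
  refine hGNa D (rows m s) (rows m t) e P1 P2 ?_ ?_
  · intro r1 hr1 r2 hr2 h12
    rw [mem_rows] at hr1 hr2
    exact disjoint_left.1 hdis hr1.1 (h12 ▸ hr2.1)
  intro c ha hb
  have hDt : D.filter (fun x => x.1 + x.2 ≤ e) = triD 0 e := by
    ext x
    rw [mem_filter, mem_triD]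
    constructor
    · rintro ⟨-, hx⟩
      omega
    · intro hx
      refine ⟨htri ?_, by omega⟩
      rw [mem_triD]
      omega
  rw [hDt] at hb
  rw [← hDp] at ha
  have hdgm : ∀ i, i ≤ e → (i, e - i) ∈ Dp := by
    intro i hi
    rw [hDp, mem_filter]
    refine ⟨htri ?_, ?_⟩
    · rw [mem_triD]
      simp only
      omega
    · simp only
      omega
  have hcV : (∑ i ∈ range (e + 1), Polynomial.C (c (i, e - i)) * Polynomial.X ^ i) ∈ V := by
    rw [hV, Submodule.mem_map]
    refine ⟨fun d => c d.1, ?_, ?_⟩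
    · rw [LinearMap.mem_ker, Matrix.toLin'_apply]
      funext r
      rw [Matrix.mulVec, dotProduct, Pi.zero_apply, ← ha r.1 r.2, ← sum_coe_sort Dp]
      apply sum_congr rfl
      intro d _
      rw [hM, Matrix.of_apply, mul_comm]
    · rw [hΦ]
      unfold dg
      apply sum_congr rfl
      intro i hi
      rw [mem_range] at hi
      beta_reduce
      rw [dif_pos (hdgm i (by omega))]
  have hz := hP2 c hb hcV
  have hz2 := hP1' c (by
    intro r hr
    rw [← ha r hr]
    apply sum_subset
    · intro x hx
      rw [mem_filter] at hx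
      rw [hDp, mem_filter]
      exact ⟨hx.1, by omega⟩
    · intro x hx hx'
      rw [hDp, mem_filter] at hx
      rw [mem_filter, not_and] at hx'
      have h5 := hx' hx.1
      rw [hz x (by rw [mem_triD]; omega), zero_mul])
  intro d hd
  by_cases hde : d.1 + d.2 ≤ e
  · apply hz
    rw [mem_triD]
    omega
  · apply hz2
    rw [mem_filter]
    exact ⟨hd, by omega⟩

end Pool.Agent.Helper43.UN
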