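import Mathlib
import Pool.Agent.Helper43.UN.GoalsZ
import Pool.Agent.Helper18.EW.Goals2
import Pool.Agent.Helper32.Hw.H2
import Pool.Agent.Helper32.Hw.H11

/-! Project UN, packet Z11n (backup): the last rows, too few conditions. -/

set_option autoImplicit false

namespace Pool.Agent.Helper43.UN

open Finset
open Pool.Agent.Helper43.Hw (T T_zero na va lz Play aa ac oo sk U Dd Sd Pn nx bb GoalH1 GoalH2 GoalH4)
open Pool.Agent.Helper43.Hw.PkH2 (kmono)
open Pool.Agent.Helper18.EW (Gr Ex kk GoalE3)

section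

variable {μ R N K b βp βm s : ℕ} {W : ℤ} {L o k D S n κ x : ℕ → ℕ}

/-- `κ` reaches `N` at the row `r` after exact rows -/
def FiZ (μ R N : ℕ) (L κ x : ℕ → ℕ) (r : ℕ) : Prop :=
  r < R ∧ κ r = N ∧ (∀ z < r, lz μ R N κ x z = L z) ∧ lz μ R N κ x r ≤ L r

theorem kNZ (hp : Play μ R N κ x) {r z : ℕ} (hr : κ r = N) (hrz : r ≤ z) (hz : z < R) : κ z = N :=
  le_antisymm (hp.le z hz) (hr ▸ kmono hp hrz hz)

theorem tailZ (h4 : GoalH4) (hβ : βm ≤ 1) (hμ : 1 ≤ μ) (hR : μ + 2 ≤ R) (hp : Play μ R N κ x)
    (hX : Ext μ R N K b βp βm s W L o k D S n) {r : ℕ} (hsr : s ≤ r)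
    (h : FiZ μ R N L κ x r) : ∀ z < R, lz μ R N κ x z ≤ L z := by
  obtain ⟨hr, hκ, hex, hl⟩ := h
  have h1 : ∀ z, r ≤ z → z < R → lz μ R N κ x z ≤ L z := by
    intro z hz
    induction z, hz using Nat.le_induction with
    | base => intro _; exact hl
    | succ z hz ih =>
      intro hzR
      have e1 := ((h4 μ R N κ x hμ hR hp z hzR).2.2.1) (kNZ hp hκ hz (by omega))
      have e2 := ih (by omega)
      have e3 := hX.inc z (by omega) hzR
      rcases Nat.eq_zero_or_pos (lz μ R N κ x z) with h0 | h0
      · omega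
      · have h5 : 1 ≤ oo μ R κ x z := by
          unfold lz at h0
          rw [← kNZ hp hκ hz (by omega)] at h0
          obtain ⟨c, hc, hc2⟩ := Finset.exists_ne_zero_of_sum_ne_zero h0.ne'
          unfold oo
          exact Finset.card_pos.2 ⟨c, mem_filter.2 ⟨hc, Nat.pos_of_ne_zero hc2⟩⟩
        omega
  intro z hz
  rcases Nat.lt_or_ge z r with h | h
  · exact (hex z h).le
  · exact h1 z h hz

theorem stepZ (hp : Play μ R N κ x) (hg : Gr μ R N (s - 1) L κ x) {y : ℕ} (hsy : s ≤ y)
    (hy2 : y + 2 < R)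
    (hex : Ex μ R N L κ x y) (hbb : bb μ R N κ x y ≤ L (y + 1)) :
    Ex μ R N L κ x (y + 1) ∨ FiZ μ R N L κ x (y + 1) := by
  obtain ⟨hyR, hκN, hlz⟩ := hex
  have hle := hp.le (y + 1) (by omega)
  have hlz' : ∀ z < y + 1, lz μ R N κ x z = L z := fun z hz => hlz z (by omega)
  have key : lz μ R N κ x (y + 1) = L (y + 1) ∨
      (κ (y + 1) = N ∧ lz μ R N κ x (y + 1) ≤ L (y + 1)) := by
    rcases hg y (by omega) hy2 hκN with ⟨h1, h2, -⟩ | ⟨-, h⟩
    · left
      omega
    · exact h
  rcases key with h | ⟨h, h'⟩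
  · rcases Nat.lt_or_ge (κ (y + 1)) N with hN | hN
    · left
      refine ⟨by omega, hN, fun z hz => ?_⟩
      rcases Nat.lt_or_ge z (y + 1) with hz' | hz'
      · exact hlz' z hz'
      · have : z = y + 1 := by omega
        rw [this, h]
    · right
      exact ⟨by omega, le_antisymm hle hN, hlz', h.le⟩
  · right
    exact ⟨by omega, h, hlz', h'⟩

theorem bbZ (h4 : GoalH4) (hμ : 1 ≤ μ) (hR : μ + 2 ≤ R) (hp : Play μ R N κ x) {y : ℕ}
    (hy2 : y + 1 < R) (hy : R ≤ y + 1 + μ) (hex : Ex μ R N L κ x y) :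
    bb μ R N κ x y + oo μ R κ x y + sk μ κ x y = L y + (N - κ y) := by
  obtain ⟨hyR, hκN, hlz⟩ := hex
  have e1 := (h4 μ R N κ x hμ hR hp y hy2).2.2.2.1 hκN
  rw [hlz y le_rfl] at e1
  have e2 : na μ R (y + 1) = na μ R y + 1 := by unfold na; omega
  have e3 : nx μ R x y = x y + 1 := by
    unfold nx
    by_cases h : 0 < x y
    · rw [if_pos h]
    · rw [if_neg h, e2]
      have := hp.nat y hyR hκN
      omega
  rw [e2, e3, Nat.mul_add, Nat.mul_one] at e1
  omega

end

theorem goalZ11n' (h1 : GoalH1) (h2 : GoalH2) (h3 : GoalE3) (h4 : GoalH4) : GoalZ11n := by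
  intro μ R N K b βp βm s kq W L o k D S n κ x y hμ hR hβ hX hp hg hex hsy hy2 hac hkk hW
  obtain ⟨g1, g2, g3, g4, g5, g6, g7⟩ := h1 μ R N κ x hμ hR hp
  obtain ⟨w1, hw1⟩ : ∃ w1, w1 = R - 1 - y := ⟨_, rfl⟩
  rw [← hw1] at hW
  have hy : R ≤ y + 1 + μ := by have := hX.Js; omega
  have hRy : R - y = w1 + 1 := by omega
  rw [hRy] at hW
  have hWpos : 0 < W := by
    have : (0 : ℤ) ≤ ((w1 * (2 ^ 24 * (Pn μ R x y + K + kq + 4 * w1 + 2) + (w1 + 1) * b) : ℕ) : ℤ) :=
      by positivity
    omega
  have main : ∀ y', y ≤ y' → y' + 2 ≤ R → Ex μ R N L κ x y' ∨ ∃ r, s ≤ r ∧ FiZ μ R N L κ x r := by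
    intro y' hyy
    induction y', hyy using Nat.le_induction with
    | base => intro _; exact Or.inl hex
    | succ y' hyy ih =>
      intro hy'
      rcases ih (by omega) with hex' | h
      swap
      · exact Or.inr h
      obtain ⟨hyR', hκN', hlz'⟩ := hex'
      have hac' : R - 1 - μ < ac R κ x (κ y') ∧ kk μ R κ x y' ≤ kq + (y' - y) := by
        rcases eq_or_lt_of_le (kmono hp hyy hyR') with h | h
        · rw [← h]
          refine ⟨hac, ?_⟩
          have a3 : (range y').filter (fun z => κ z = κ y' ∧ na μ R z < x z) ⊆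
              (range y).filter (fun z => κ z = κ y ∧ na μ R z < x z) ∪ Ico y y' := by
            intro t ht
            simp only [mem_filter, mem_range, mem_union, mem_Ico] at ht ⊢
            rcases Nat.lt_or_ge t y with h' | h'
            · exact Or.inl ⟨h', by rw [h]; exact ht.2.1, ht.2.2⟩
            · exact Or.inr ⟨h', ht.1⟩
          have a4 := (Finset.card_le_card a3).trans (Finset.card_union_le _ _)
          rw [Nat.card_Ico] at a4
          unfold kk at hkk ⊢
          omega
        · have e1 : y < ac R κ x (κ y') := by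
            refine ((g1 (κ y') y (by omega)).2).1 ?_
            unfold aa
            split_ifs <;> omega
          refine ⟨by omega, ?_⟩
          have a3 : (range y').filter (fun z => κ z = κ y' ∧ na μ R z < x z) ⊆ Ico y y' := by
            intro t ht
            simp only [mem_filter, mem_range, mem_Ico] at ht ⊢
            rcases Nat.lt_or_ge t y with h' | h'
            · exfalso
              have := kmono hp h'.le (by omega)
              omega
            · exact ⟨h', ht.1⟩
          have a4 := Finset.card_le_card a3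
          rw [Nat.card_Ico] at a4
          unfold kk
          omega
      have e1 := (h3 μ R N κ x y' hμ hR hp hyR' hκN' (by omega)).2 hac'.1
      obtain ⟨w', hw'⟩ : ∃ w', w' = R - 1 - y' := ⟨_, rfl⟩
      have hww : w1 = w' + (y' - y) := by omega
      have hRy' : R - y' = w' + 1 := by omega
      rw [← hw', hRy'] at e1
      have et := hX.tot y' (by omega) hyR'
      rw [← hw', hRy'] at et
      have hsum : ∑ z ∈ range y', lz μ R N κ x z = ∑ z ∈ range y', L z :=
        Finset.sum_congr rfl fun z hz => hlz' z (by rw [mem_range] at hz; omega)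
      rw [hsum, hlz' y' le_rfl] at e1
      have eS := hX.Sq y' (by omega) hyR'
      rw [← hw', hRy'] at eS
      -- the pending skips
      have hSd : Sd μ R κ x y' ≤ w' * (Pn μ R x y + (y' - y)) := by
        unfold Sd
        rw [← hw']
        have a1 : ∑ t ∈ (range y').filter (fun t => κ t < κ y' ∧ 0 < x t ∧ U μ R x t ≤ w'),
            U μ R x t ≤ ∑ t ∈ (range y').filter (fun t => 0 < x t ∧ 0 < U μ R x t ∧
              U μ R x t ≤ w'), U μ R x t := by
          rw [Finset.sum_filter, Finset.sum_filter]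
          refine Finset.sum_le_sum fun t _ => ?_
          by_cases h : κ t < κ y' ∧ 0 < x t ∧ U μ R x t ≤ w'
          · rw [if_pos h]
            by_cases h' : 0 < U μ R x t
            · rw [if_pos ⟨h.2.1, h', h.2.2⟩]
            · omega
          · rw [if_neg h]
            exact Nat.zero_le _
        refine a1.trans ?_
        have a2 : ∑ t ∈ (range y').filter (fun t => 0 < x t ∧ 0 < U μ R x t ∧ U μ R x t ≤ w'),
            U μ R x t ≤ ((range y').filter (fun t => 0 < x t ∧ 0 < U μ R x t ∧
              U μ R x t ≤ w')).card * w' := by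
          rw [← smul_eq_mul]
          exact Finset.sum_le_card_nsmul _ _ _ fun t ht => (mem_filter.1 ht).2.2.2
        refine a2.trans ?_
        rw [Nat.mul_comm]
        refine Nat.mul_le_mul_left _ ?_
        have a3 : (range y').filter (fun t => 0 < x t ∧ 0 < U μ R x t ∧ U μ R x t ≤ w') ⊆
            (range y).filter (fun t => 0 < x t ∧ 0 < U μ R x t ∧ U μ R x t ≤ R - 1 - y) ∪
            Ico y y' := by
          intro t ht
          simp only [mem_filter, mem_range, mem_union, mem_Ico] at ht ⊢
          rcases Nat.lt_or_ge t y with h | h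
          · exact Or.inl ⟨h, ht.2.1, ht.2.2.1, by omega⟩
          · exact Or.inr ⟨h, ht.1⟩
        refine (Finset.card_le_card a3).trans ((Finset.card_union_le _ _).trans ?_)
        rw [Nat.card_Ico]
        rfl
      have hx : x y' - na μ R y' ≤ w' := by
        have := hp.lt y' (by omega)
        unfold na
        omega
      obtain ⟨d, hd⟩ : ∃ d, d = y' - y := ⟨_, rfl⟩
      rw [← hd] at hww hSd hac'
      have hprod : (w' + 1 + kk μ R κ x y') * (x y' - na μ R y') ≤
          (w' + 1 + (kq + d)) * w' := Nat.mul_le_mul (by omega) hx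
      have hgoal : N - κ y' + βm + 1 ≤ βp + o y' + oo μ R κ x y' := by
        by_contra hcon
        have c1 : βp + o y' + oo μ R κ x y' ≤ N - κ y' + βm := by omega
        have c2 : (βp + o y' + oo μ R κ x y') * T w' ≤ (N - κ y' + βm) * T w' :=
          Nat.mul_le_mul_right _ c1
        have b0 : (((βp + o y' + oo μ R κ x y') * T w' : ℕ) : ℤ) ≤ ((N - κ y' + βm) * T w' : ℕ) := by
          exact_mod_cast c2
        have b1 : (Sd μ R κ x y' : ℤ) ≤ w' * (Pn μ R x y + d) := by exact_mod_cast hSd
        have b2 : (((w' + 1 + kk μ R κ x y') * (x y' - na μ R y') : ℕ) : ℤ) ≤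
            (w' + 1 + (kq + d)) * w' := by exact_mod_cast hprod
        have b3 : ((w1 : ℤ) * (2 ^ 24 * (Pn μ R x y + K + kq + 4 * w1 + 2) + (w1 + 1) * b)) <
            2 ^ 24 * W := by exact_mod_cast hW
        have b4 : (w1 : ℤ) = w' + d := by exact_mod_cast hww
        have b5 : (0 : ℤ) ≤ Dd μ R κ x y' := by positivity
        have b5' : (0 : ℤ) ≤ D y' := by positivity
        have b6 : (2 : ℤ) ^ 24 * S y' ≤ w' * (2 ^ 24 * K + (w' + 1) * b) := by exact_mod_cast eS
        have e1' : (Dd μ R κ x y' : ℤ) + ((N - κ y') * T w' : ℕ) + ∑ z ∈ range y', (L z : ℤ) +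
            (w' + 1) * L y' ≤ Sd μ R κ x y' + (oo μ R κ x y' : ℤ) * T w' + N * T μ +
            ((w' + 1 + kk μ R κ x y') * (x y' - na μ R y') : ℕ) := by exact_mod_cast e1
        have et' : ∑ z ∈ range y', (L z : ℤ) + (w' + 1) * L y' + (βp + o y') * T w' + S y' =
            N * T μ + W + D y' + βm * T w' := by
          have := et
          push_cast at this ⊢
          linarith
        push_cast at b0
        have key : W ≤ w' * (Pn μ R x y + d) + (w' + 1 + (kq + d)) * w' + S y' := by
          push_cast at e1' b2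
          linarith
        have key2 : 2 ^ 24 * W ≤ 2 ^ 24 * (w' * (Pn μ R x y + d) + (w' + 1 + (kq + d)) * w') +
            w' * (2 ^ 24 * K + (w' + 1) * b) := by linarith
        rw [b4] at b3
        have c6 : (0 : ℤ) ≤ d * (Pn μ R x y + K + kq) := by positivity
        have c7 : (0 : ℤ) ≤ (w' : ℤ) * d := by positivity
        have c8 : (0 : ℤ) ≤ (w' : ℤ) * w' := by positivity
        have c9 : (0 : ℤ) ≤ (d : ℤ) * d := by positivity
        have c10 : (0 : ℤ) ≤ (w' : ℤ) := by positivity
        have c11 : (0 : ℤ) ≤ (d : ℤ) := by positivity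
        have c12 : (0 : ℤ) ≤ (d : ℤ) * b := by positivity
        have c13 : (0 : ℤ) ≤ (w' : ℤ) * d * b := by positivity
        have c14 : (0 : ℤ) ≤ (d : ℤ) * d * b := by positivity
        linarith
      have hbb := bbZ h4 hμ hR hp (show y' + 1 < R by omega) (by omega)
        ⟨hyR', hκN', hlz'⟩
      have hinc := hX.inc y' (by omega) (by omega)
      rcases stepZ hp hg (by omega) (by omega) ⟨hyR', hκN', hlz'⟩ (by omega) with h | h
      · exact Or.inl h
      · exact Or.inr ⟨_, by omega, h⟩
  rcases main (R - 2) (by omega) (by omega) with h | ⟨r, hsr, h⟩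
  · obtain ⟨-, -, hlz⟩ := h
    have e1 := (h2 μ R N κ x hμ hR hp).2.2.2
    have et := hX.tot (R - 1) (by omega) (by omega)
    have eS := hX.Sq (R - 1) (by omega) (by omega)
    have eD := hX.Dn (R - 1) (by omega) (by omega)
    have z0 : R - 1 - (R - 1) = 0 := by omega
    have z1 : R - (R - 1) = 1 := by omega
    rw [z0, T_zero] at et eD
    rw [z0] at eS
    have hS0 : S (R - 1) = 0 := by
      have : 2 ^ 24 * S (R - 1) ≤ 0 := by simpa using eS
      omega
    have hD0 : D (R - 1) = 0 := by
      have : D (R - 1) ≤ 0 := by simpa using eD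
      omega
    rw [z1, hS0, hD0] at et
    have e3 : R = (R - 1) + 1 := by omega
    have e4 : ∑ z ∈ range (R - 1), lz μ R N κ x z + lz μ R N κ x (R - 1) = N * T μ := by
      rw [← e1]
      conv_rhs => rw [e3]
      rw [Finset.sum_range_succ]
      rw [show R - 1 + 1 = R by omega]
    have e5 : ∑ z ∈ range (R - 1), lz μ R N κ x z = ∑ z ∈ range (R - 1), L z :=
      Finset.sum_congr rfl fun z hz => hlz z (by rw [mem_range] at hz; omega)
    intro z hz
    rcases Nat.lt_or_ge z (R - 1) with h | h
    · exact (hlz z (by omega)).le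
    · have : z = R - 1 := by omega
      rw [this]
      rw [e5] at e4
      have e4' : ∑ z ∈ range (R - 1), (L z : ℤ) + lz μ R N κ x (R - 1) = N * T μ := by
        exact_mod_cast e4
      have : (lz μ R N κ x (R - 1) : ℤ) ≤ L (R - 1) := by
        push_cast at et
        linarith
      exact_mod_cast this
  · exact tailZ h4 hβ hμ hR hp hX hsr h

end Pool.Agent.Helper43.UN
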